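import Pool.Agent.MP_7e478a_co.AllN

set_option autoImplicit false

namespace Pool.Agent.Results.MP_7e478a_co.AllBoardsDefect

open Pool.Agent.MP_7e478a_co

theorem result (d : ℕ) (hd : 3 ≤ d) : ∃ K N : ℕ, ∀ n : ℕ, N ≤ n → ∀ m : ℕ,
    K * m ≤ n ^ (d - 1) → ∃ Q : Finset (Fin d → Fin n), NonAttacking Q ∧ Q.card ≤ m ∧
      ∀ P P₀ : Finset (Fin d → Fin n), Q ⊆ P → NonAttacking P → IsMaximum P₀ →
        3 * P.card + m ≤ 3 * P₀.card + K * n ^ (d - 2) :=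
  defect' d hd

end Pool.Agent.Results.MP_7e478a_co.AllBoardsDefect
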