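import Pool.Agent.MP_7e478a_co.Small.Main

set_option autoImplicit false

namespace Pool.Agent.Results.MP_7e478a_co.SmallObstruction

open Pool.Agent.MP_7e478a_co

theorem result (d n : ℕ) (hd : 2 ≤ d) (hn : 10 ^ 10 ≤ n) (h : d = 2 ∨ 2 ^ d < n.minFac) :
    ∃ Q : Finset (Fin d → Fin n), NonAttacking Q ∧ 1000 * Q.card ≤ 212 * n ∧
      ∀ P P₀ : Finset (Fin d → Fin n), Q ⊆ P → NonAttacking P → IsMaximum P₀ →
        40000 * P.card + n ≤ 40000 * P₀.card :=
  Small.threshold_small d n hd hn h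

end Pool.Agent.Results.MP_7e478a_co.SmallObstruction
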