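import Pool.Agent.MP_7e478a_co.Main

set_option autoImplicit false

namespace Pool.Agent.Results.MP_7e478a_co.ThresholdBelowN

open Pool.Agent.MP_7e478a_co

theorem result (d : ℕ) (hd : 3 ≤ d) (n : ℕ) (hn : 2 ^ d < n.minFac) :
    ∃ Q : Finset (Fin d → Fin n), NonAttacking Q ∧ Q.card ≤ n ∧
      ¬ ∃ P : Finset (Fin d → Fin n), Q ⊆ P ∧ IsMaximum P :=
  blocking' d hd n hn

end Pool.Agent.Results.MP_7e478a_co.ThresholdBelowN
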